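import Pool.Agent.H99.HN.Targets

/-!
PW: the feasibility inequality for locally Lipschitz fluxes, by averaging over short intervals.
-/

set_option autoImplicit false

namespace Pool.Agent.H96.HN

open Pool.Agent.H99.HM Pool.Agent.H99.HN
open MeasureTheory Set Filter Topology Real

/-! ### growth classes -/

lemma pow_le_aux {r : ℝ} (hr : 0 < r) {n N : ℕ} (h : n ≤ N) : r ^ n ≤ 1 / r + r ^ N := by
  rcases le_total r 1 with h1 | h1
  · have h2 : r ^ n ≤ 1 := pow_le_one₀ hr.le h1
    have h3 : 1 ≤ 1 / r := by rw [le_div_iff₀ hr]; linarith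
    have h4 : 0 ≤ r ^ N := by positivity
    linarith
  · have h2 : r ^ n ≤ r ^ N := pow_le_pow_right₀ h1 h
    have h3 : 0 ≤ 1 / r := by positivity
    linarith

lemma gr1_add {f g : ℝ → ℝ} (hf : Gr1 f) (hg : Gr1 g) : Gr1 (fun r => f r + g r) := by
  obtain ⟨C, n, h⟩ := hf
  obtain ⟨C', n', h'⟩ := hg
  refine ⟨2 * (|C| + |C'|), n + n', fun r hr => ?_⟩
  have e1 := pow_le_aux hr (Nat.le_add_right n n')
  have e2 := pow_le_aux hr (Nat.le_add_left n' n)
  have e3 : 0 ≤ 1 / r := by positivity
  have e4 : 0 ≤ r ^ (n + n') := by positivity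
  have e5 : 0 ≤ r ^ n := by positivity
  have e6 : 0 ≤ r ^ n' := by positivity
  have a1 : |f r| ≤ |C| * (2 * (1 / r + r ^ (n + n'))) := by
    refine (h r hr).trans ?_
    refine (mul_le_mul_of_nonneg_right (le_abs_self C) (by linarith)).trans ?_
    exact mul_le_mul_of_nonneg_left (by linarith) (abs_nonneg C)
  have a2 : |g r| ≤ |C'| * (2 * (1 / r + r ^ (n + n'))) := by
    refine (h' r hr).trans ?_
    refine (mul_le_mul_of_nonneg_right (le_abs_self C') (by linarith)).trans ?_
    exact mul_le_mul_of_nonneg_left (by linarith) (abs_nonneg C')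
  have a3 := abs_add_le (f r) (g r)
  linarith

lemma gr1_cmul {f : ℝ → ℝ} (hf : Gr1 f) (a : ℝ) : Gr1 (fun r => a * f r) := by
  obtain ⟨C, n, h⟩ := hf
  refine ⟨|a| * C, n, fun r hr => ?_⟩
  rw [abs_mul, mul_assoc]
  exact mul_le_mul_of_nonneg_left (h r hr) (abs_nonneg a)

lemma gr1_of_le {f g : ℝ → ℝ} (hg : Gr1 g) (h : ∀ r, 0 < r → |f r| ≤ g r) : Gr1 f := by
  obtain ⟨C, n, h'⟩ := hg
  exact ⟨C, n, fun r hr => (h r hr).trans ((le_abs_self _).trans (h' r hr))⟩

lemma gr1_abs {f : ℝ → ℝ} (hf : Gr1 f) : Gr1 (fun r => |f r|) := by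
  obtain ⟨C, n, h⟩ := hf
  exact ⟨C, n, fun r hr => by rw [abs_abs]; exact h r hr⟩

lemma gr1_pow (n : ℕ) : Gr1 (fun r => r ^ n) := by
  refine ⟨1, n, fun r hr => ?_⟩
  rw [abs_of_nonneg (by positivity), one_mul]
  exact pow_le_aux hr le_rfl

lemma gr1_inv : Gr1 (fun r => 1 / r) := by
  refine ⟨1, 0, fun r hr => ?_⟩
  rw [abs_of_nonneg (by positivity)]
  simp

/-- `f / r` for `f` of class `Gr` -/
lemma gr1_of_gr {f : ℝ → ℝ} (hf : Gr f) : Gr1 (fun r => |f r| / r) := by
  obtain ⟨C, n, h⟩ := hf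
  refine gr1_of_le (gr1_cmul (gr1_add gr1_inv (gr1_add (gr1_pow n) gr1_inv)) |C|) fun r hr => ?_
  rw [abs_of_nonneg (by positivity), div_le_iff₀ hr]
  have e1 : |f r| ≤ |C| * (1 + r ^ n) := (h r hr).trans
    (mul_le_mul_of_nonneg_right (le_abs_self C) (by positivity))
  refine e1.trans ?_
  rw [mul_assoc]
  refine mul_le_mul_of_nonneg_left ?_ (abs_nonneg C)
  have e2 : (1 / r + (r ^ n + 1 / r)) * r = 1 + r ^ n * r + 1 := by
    field_simp
    ring
  rw [e2]
  rcases le_total r 1 with h1 | h1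
  · have : r ^ n ≤ 1 := pow_le_one₀ hr.le h1
    have : 0 ≤ r ^ n * r := by positivity
    linarith
  · have : r ^ n * 1 ≤ r ^ n * r := mul_le_mul_of_nonneg_left h1 (by positivity)
    linarith

/-! ### lower bound for multipliers -/

lemma mult_inv {h h1 : ℝ → ℝ} (hm : Mult h h1) {r : ℝ} (hr : 0 < r) :
    1 / h r ≤ 1 / h 1 * (1 / r ^ 3 + r ^ 3) := by
  have h11 := hm.pos 1 one_pos
  have hhr := hm.pos r hr
  have hcont : ContinuousOn h (Ioi 0) := hm.cont.mono Ioi_subset_Ici_self
  -- `h / r³` is decreasing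
  have anti : AntitoneOn (fun r => h r / r ^ 3) (Ioi 0) := by
    apply antitoneOn_of_hasDerivWithinAt_nonpos (convex_Ioi 0)
      (f' := fun r => (h1 r * r ^ 3 - h r * (3 * r ^ 2)) / (r ^ 3) ^ 2)
    · refine hcont.div (by fun_prop) fun x hx => ?_
      exact pow_ne_zero _ (ne_of_gt hx)
    · intro x hx
      rw [interior_Ioi] at hx ⊢
      have hx0 : (0 : ℝ) < x := hx
      have := (hm.der x hx0).div ((hasDerivAt_pow 3 x)) (pow_ne_zero 3 hx0.ne')
      have e : (h1 x * x ^ 3 - h x * (((3 : ℕ) : ℝ) * x ^ (3 - 1))) / (x ^ 3) ^ 2 =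
        (h1 x * x ^ 3 - h x * (3 * x ^ 2)) / (x ^ 3) ^ 2 := by norm_num
      rw [← e]
      exact this.hasDerivWithinAt
    · intro x hx
      rw [interior_Ioi] at hx
      have hx0 : (0 : ℝ) < x := hx
      apply div_nonpos_of_nonpos_of_nonneg _ (by positivity)
      have h3 := (abs_le.1 (hm.b3 x hx0)).2
      nlinarith [mul_le_mul_of_nonneg_right h3 (by positivity : (0 : ℝ) ≤ x ^ 2)]
  have mono : MonotoneOn (fun r => h r * r ^ 3) (Ioi 0) := by
    apply monotoneOn_of_hasDerivWithinAt_nonneg (convex_Ioi 0)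
      (f' := fun r => h1 r * r ^ 3 + h r * (3 * r ^ 2))
    · exact hcont.mul (by fun_prop)
    · intro x hx
      rw [interior_Ioi] at hx ⊢
      have hx0 : (0 : ℝ) < x := hx
      have := (hm.der x hx0).mul ((hasDerivAt_pow 3 x))
      have e : h1 x * x ^ 3 + h x * (((3 : ℕ) : ℝ) * x ^ (3 - 1)) =
        h1 x * x ^ 3 + h x * (3 * x ^ 2) := by norm_num
      rw [← e]
      exact this.hasDerivWithinAt
    · intro x hx
      rw [interior_Ioi] at hx
      have hx0 : (0 : ℝ) < x := hx
      have h3 := (abs_le.1 (hm.b3 x hx0)).1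
      nlinarith [mul_le_mul_of_nonneg_right h3 (by positivity : (0 : ℝ) ≤ x ^ 2)]
  rcases le_total r 1 with h1r | h1r
  · have := anti (mem_Ioi.2 hr) (mem_Ioi.2 one_pos) h1r
    simp only [one_pow, div_one] at this
    rw [le_div_iff₀ (by positivity)] at this
    have e1 : 1 / h r ≤ 1 / (h 1 * r ^ 3) := one_div_le_one_div_of_le (by positivity) this
    have e2 : 1 / (h 1 * r ^ 3) = 1 / h 1 * (1 / r ^ 3) := by
      field_simp
    rw [e2] at e1
    refine e1.trans (mul_le_mul_of_nonneg_left ?_ (by positivity))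
    have : 0 ≤ r ^ 3 := by positivity
    linarith
  · have := mono (mem_Ioi.2 one_pos) (mem_Ioi.2 hr) h1r
    simp only [one_pow, mul_one] at this
    have e1 : 1 / h r ≤ 1 / h 1 * r ^ 3 := by
      rw [div_le_iff₀ hhr]
      have : 1 / h 1 * r ^ 3 * h r = (h r * r ^ 3) / h 1 := by field_simp
      rw [this, le_div_iff₀ h11]
      linarith
    refine e1.trans (mul_le_mul_of_nonneg_left ?_ (by positivity))
    have : 0 ≤ 1 / r ^ 3 := by positivity
    linarith

/-! ### averages -/

/-- length of the averaging interval -/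
noncomputable def len (n : ℕ) (r : ℝ) : ℝ := r ^ 2 / ((n + 1) * (1 + r))

lemma len_pos (n : ℕ) {r : ℝ} (hr : 0 < r) : 0 < len n r := by
  unfold len
  positivity

lemma len_le (n : ℕ) {r : ℝ} (hr : 0 < r) : len n r ≤ r := by
  unfold len
  rw [div_le_iff₀ (by positivity)]
  have : (0 : ℝ) ≤ n := Nat.cast_nonneg n
  nlinarith [mul_nonneg this hr.le, mul_nonneg this (sq_nonneg r)]

lemma len_le_div (n : ℕ) {r : ℝ} (hr : 0 < r) : len n r ≤ r ^ 2 / (n + 1) := by
  unfold len
  have hn : (0 : ℝ) ≤ n := Nat.cast_nonneg n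
  apply div_le_div_of_nonneg_left (by positivity) (by positivity)
  nlinarith

lemma len_le_sq (n : ℕ) {r : ℝ} (hr : 0 < r) : len n r ≤ r ^ 2 := by
  refine (len_le_div n hr).trans ?_
  have hn : (0 : ℝ) ≤ n := Nat.cast_nonneg n
  apply div_le_self (by positivity)
  linarith

/-- derivative of `len` -/
noncomputable def len1 (n : ℕ) (r : ℝ) : ℝ := (r ^ 2 + 2 * r) / ((n + 1) * (1 + r) ^ 2)

lemma hasDerivAt_len (n : ℕ) {r : ℝ} (hr : 0 < r) : HasDerivAt (len n) (len1 n r) r := by
  have hn : (0 : ℝ) < n + 1 := by positivity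
  have h1 : HasDerivAt (fun r : ℝ => r ^ 2) (2 * r) r := by
    simpa using hasDerivAt_pow 2 r
  have h2 : HasDerivAt (fun r : ℝ => ((n : ℝ) + 1) * (1 + r)) ((n : ℝ) + 1) r := by
    simpa using ((hasDerivAt_id r).const_add 1).const_mul ((n : ℝ) + 1)
  have h3 := h1.div h2 (by positivity)
  refine h3.congr_deriv ?_
  unfold len1
  field_simp
  ring

lemma len1_nonneg (n : ℕ) {r : ℝ} (hr : 0 < r) : 0 ≤ len1 n r := by
  unfold len1
  positivity

lemma len1_le (n : ℕ) {r : ℝ} (hr : 0 < r) : len1 n r ≤ 1 / (n + 1) := by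
  unfold len1
  have hn : (0 : ℝ) < n + 1 := by positivity
  rw [div_le_div_iff₀ (by positivity) hn]
  nlinarith [mul_pos hn hr, hn]

lemma continuousOn_len (n : ℕ) : ContinuousOn (len n) (Ioi 0) := fun r hr =>
  (hasDerivAt_len n hr).continuousAt.continuousWithinAt

lemma continuousOn_len1 (n : ℕ) : ContinuousOn (len1 n) (Ioi 0) := by
  unfold len1
  refine ContinuousOn.div (by fun_prop) (by fun_prop) fun r hr => ?_
  have hr0 : (0 : ℝ) < r := hr
  positivity

section avg

variable {B : ℝ → ℝ}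

/-- primitive -/
noncomputable def prim (B : ℝ → ℝ) (r : ℝ) : ℝ := ∫ y in (1 : ℝ)..r, B y

/-- the averaged function -/
noncomputable def avg (B : ℝ → ℝ) (n : ℕ) (r : ℝ) : ℝ :=
  (prim B (r + len n r) - prim B r) / len n r

/-- its derivative -/
noncomputable def avg1 (B : ℝ → ℝ) (n : ℕ) (r : ℝ) : ℝ :=
  (B (r + len n r) - B r) / len n r + len1 n r / len n r * (B (r + len n r) - avg B n r)

lemma intervalIntegrable_of_pos (hB : ContinuousOn B (Ioi 0)) {a b : ℝ} (ha : 0 < a)
    (hb : 0 < b) : IntervalIntegrable B volume a b := by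
  apply ContinuousOn.intervalIntegrable
  apply hB.mono
  intro x hx
  rw [mem_uIcc] at hx
  rcases hx with hx | hx
  · exact lt_of_lt_of_le ha hx.1
  · exact lt_of_lt_of_le hb hx.1

lemma hasDerivAt_prim (hB : ContinuousOn B (Ioi 0)) {r : ℝ} (hr : 0 < r) :
    HasDerivAt (prim B) (B r) r := by
  have hc : ContinuousAt B r := hB.continuousAt (Ioi_mem_nhds hr)
  exact intervalIntegral.integral_hasDerivAt_right
    (intervalIntegrable_of_pos hB one_pos hr)
    (hB.stronglyMeasurableAtFilter isOpen_Ioi r hr) hc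

lemma hasDerivAt_avg (hB : ContinuousOn B (Ioi 0)) (n : ℕ) {r : ℝ} (hr : 0 < r) :
    HasDerivAt (avg B n) (avg1 B n r) r := by
  have hl := len_pos n hr
  have h1 : HasDerivAt (fun r => r + len n r) (1 + len1 n r) r :=
    (hasDerivAt_id r).add (hasDerivAt_len n hr)
  have h0 : HasDerivAt (prim B) (B (r + len n r)) (r + len n r) :=
    hasDerivAt_prim hB (by positivity : 0 < r + len n r)
  have h2 : HasDerivAt (prim B ∘ fun r => r + len n r) (B (r + len n r) * (1 + len1 n r)) r :=
    HasDerivAt.comp r h0 h1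
  have h3 := (h2.sub (hasDerivAt_prim hB hr)).div (hasDerivAt_len n hr) hl.ne'
  refine HasDerivAt.congr_deriv h3 ?_
  simp only [Function.comp, Pi.sub_apply]
  unfold avg1 avg
  field_simp
  ring

lemma continuousOn_avg1 (hB : ContinuousOn B (Ioi 0)) (n : ℕ) :
    ContinuousOn (avg1 B n) (Ioi 0) := by
  have h1 : ContinuousOn (fun r => B (r + len n r)) (Ioi 0) := by
    refine hB.comp (continuousOn_id.add (continuousOn_len n)) fun r hr => ?_
    have : 0 < len n r := len_pos n hr
    have hr0 : (0 : ℝ) < r := hr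
    show (0 : ℝ) < r + len n r
    positivity
  have h2 : ContinuousOn (avg B n) (Ioi 0) := fun r hr =>
    (hasDerivAt_avg hB n hr).continuousAt.continuousWithinAt
  unfold avg1
  refine ContinuousOn.add ?_ ?_
  · exact (h1.sub hB).div (continuousOn_len n) fun r hr => (len_pos n hr).ne'
  · exact ((continuousOn_len1 n).div (continuousOn_len n) fun r hr => (len_pos n hr).ne').mul
      (h1.sub h2)

/-- the average is close to the value -/
lemma avg_sub_le (hB : ContinuousOn B (Ioi 0)) {r w : ℝ} (hr : 0 < r) (hw : 0 ≤ w)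
    (h : ∀ b, r ≤ b → b ≤ 2 * r → |B b - B r| ≤ w * (b - r)) (n : ℕ) :
    |avg B n r - B r| ≤ w * len n r := by
  have hl := len_pos n hr
  have hle := len_le n hr
  have hrl : 0 < r + len n r := by positivity
  have e1 : prim B (r + len n r) - prim B r = ∫ y in r..(r + len n r), B y := by
    unfold prim
    rw [intervalIntegral.integral_interval_sub_left
      (intervalIntegrable_of_pos hB one_pos hrl) (intervalIntegrable_of_pos hB one_pos hr)]
  have e2 : avg B n r - B r = (∫ y in r..(r + len n r), (B y - B r)) / len n r := by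
    rw [intervalIntegral.integral_sub (intervalIntegrable_of_pos hB hr hrl)
      intervalIntegrable_const, intervalIntegral.integral_const]
    unfold avg
    rw [e1, smul_eq_mul]
    field_simp
    ring
  have e3 : ‖∫ y in r..(r + len n r), (B y - B r)‖ ≤ w * len n r * |r + len n r - r| := by
    apply intervalIntegral.norm_integral_le_of_norm_le_const
    intro y hy
    rw [uIoc_of_le (by linarith)] at hy
    rw [Real.norm_eq_abs]
    refine (h y hy.1.le (by linarith [hy.2])).trans ?_
    exact mul_le_mul_of_nonneg_left (by linarith [hy.2]) hw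
  rw [e2, abs_div, abs_of_pos hl, div_le_iff₀ hl]
  rw [Real.norm_eq_abs, add_sub_cancel_left, abs_of_pos hl] at e3
  exact e3

lemma avg1_le (hB : ContinuousOn B (Ioi 0)) {r w : ℝ} (hr : 0 < r) (hw : 0 ≤ w)
    (h : ∀ b, r ≤ b → b ≤ 2 * r → |B b - B r| ≤ w * (b - r)) (n : ℕ) :
    |len1 n r / len n r * (B (r + len n r) - avg B n r)| ≤ 2 * w / (n + 1) ∧
    |avg1 B n r| ≤ 3 * w := by
  have hl := len_pos n hr
  have hle := len_le n hr
  have a1 := avg_sub_le hB hr hw h n
  have a2 : |B (r + len n r) - B r| ≤ w * len n r := by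
    have := h (r + len n r) (by linarith) (by linarith)
    rwa [add_sub_cancel_left] at this
  have a3 : |B (r + len n r) - avg B n r| ≤ 2 * w * len n r := by
    have : B (r + len n r) - avg B n r = (B (r + len n r) - B r) - (avg B n r - B r) := by ring
    rw [this]
    refine (abs_sub _ _).trans ?_
    linarith
  have hn : (0 : ℝ) < n + 1 := by positivity
  have a4 : |len1 n r / len n r * (B (r + len n r) - avg B n r)| ≤ 2 * w / (n + 1) := by
    rw [abs_mul, abs_div, abs_of_nonneg (len1_nonneg n hr), abs_of_pos hl]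
    calc len1 n r / len n r * |B (r + len n r) - avg B n r|
        ≤ len1 n r / len n r * (2 * w * len n r) :=
          mul_le_mul_of_nonneg_left a3 (div_nonneg (len1_nonneg n hr) hl.le)
      _ = len1 n r * (2 * w) := by field_simp
      _ ≤ 1 / (n + 1) * (2 * w) := mul_le_mul_of_nonneg_right (len1_le n hr) (by positivity)
      _ = 2 * w / (n + 1) := by ring
  refine ⟨a4, ?_⟩
  have a5 : |(B (r + len n r) - B r) / len n r| ≤ w := by
    rw [abs_div, abs_of_pos hl, div_le_iff₀ hl]
    exact a2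
  have a6 : 2 * w / (n + 1) ≤ 2 * w := by
    apply div_le_self (by positivity)
    have : (0 : ℝ) ≤ n := Nat.cast_nonneg n
    linarith
  unfold avg1
  refine (abs_add_le _ _).trans ?_
  linarith

end avg

/-! ### the theorem -/

theorem pw (hTr : T_trunc) : T_pw := by
  intro ν tc κ hF h h1 B B1 hm hL
  obtain ⟨C, N, hlip⟩ := hL.lip
  obtain ⟨K, hK⟩ := hL.der
  obtain ⟨CB, NB, hgrB⟩ := hL.gr
  obtain ⟨Ch, -, hTr1, -⟩ := hTr h h1 hm
  have h11 := hm.pos 1 one_pos
  have hC : 0 ≤ C := by
    have := hlip 1 2 one_pos (by norm_num) (by norm_num)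
    have h0 := abs_nonneg (B 2 - B 1)
    norm_num at this
    linarith
  set w : ℝ → ℝ := fun r => C * (1 / r + r ^ N) with hwdef
  have hw0 : ∀ r, 0 < r → 0 ≤ w r := fun r hr => by simp only [hwdef]; positivity
  have hw : ∀ r, 0 < r → ∀ b, r ≤ b → b ≤ 2 * r → |B b - B r| ≤ w r * (b - r) :=
    fun r hr b hb hb2 => hlip r b hr hb hb2
  have hBc : ContinuousOn B (Ioi 0) := by
    intro r hr
    have hr0 : (0 : ℝ) < r := hr
    refine ContinuousAt.continuousWithinAt ?_
    refine continuousAt_of_locally_lipschitz (half_pos hr0) (C * (2 / r + r ^ N)) ?_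
    intro y hy
    rw [Real.dist_eq] at hy
    rw [Real.dist_eq, Real.dist_eq]
    have hy1 := abs_lt.1 hy
    rcases le_total r y with hry | hry
    · refine (hlip r y hr0 hry (by linarith)).trans ?_
      rw [abs_of_nonneg (by linarith : 0 ≤ y - r)]
      refine mul_le_mul_of_nonneg_right (mul_le_mul_of_nonneg_left ?_ hC) (by linarith)
      have : 1 / r ≤ 2 / r := by
        apply div_le_div_of_nonneg_right _ hr0.le
        norm_num
      linarith
    · have hy0 : 0 < y := by linarith
      rw [abs_sub_comm (B y) (B r), abs_sub_comm y r]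
      refine (hlip y r hy0 hry (by linarith)).trans ?_
      rw [abs_of_nonneg (by linarith : 0 ≤ r - y)]
      refine mul_le_mul_of_nonneg_right (mul_le_mul_of_nonneg_left ?_ hC) (by linarith)
      have e1 : 1 / y ≤ 2 / r := by
        rw [div_le_div_iff₀ hy0 hr0]
        linarith
      have e2 : y ^ N ≤ r ^ N := pow_le_pow_left₀ hy0.le hry N
      linarith
  -- the quadratic term
  set q : ℝ → ℝ := fun r => (B r + h1 r / 2) ^ 2 / h r with hqdef
  have hq0 : ∀ r, 0 < r → 0 ≤ q r := fun r hr => div_nonneg (sq_nonneg _) (hm.pos r hr).le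
  set Q : ℝ → ℝ := fun r => C ^ 2 * (1 / h 1) * (1 / r + (2 * r ^ N + (r ^ (2 * N + 1) +
    (r ^ 5 + (2 * r ^ (N + 6) + r ^ (2 * N + 7)))))) with hQdef
  have hQgr : Gr1 Q := gr1_cmul (gr1_add gr1_inv (gr1_add (gr1_cmul (gr1_pow N) 2)
    (gr1_add (gr1_pow _) (gr1_add (gr1_pow _) (gr1_add (gr1_cmul (gr1_pow _) 2) (gr1_pow _))))))
    (C ^ 2 * (1 / h 1))
  have hdiff : ∀ n : ℕ, ∀ r, 0 < r → |avg B n r - B r| ≤ w r * len n r := fun n r hr =>
    avg_sub_le hBc hr (hw0 r hr) (hw r hr) n
  have hQ : ∀ n : ℕ, ∀ r, 0 < r → (avg B n r - B r) ^ 2 / h r ≤ Q r := by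
    intro n r hr
    have e1 : |avg B n r - B r| ≤ C * (r + r ^ (N + 2)) := by
      refine (hdiff n r hr).trans ?_
      refine (mul_le_mul_of_nonneg_left (len_le_sq n hr) (hw0 r hr)).trans (le_of_eq ?_)
      simp only [hwdef]
      field_simp
      ring
    have e2 : (avg B n r - B r) ^ 2 ≤ (C * (r + r ^ (N + 2))) ^ 2 := by
      rw [← sq_abs (avg B n r - B r)]
      exact pow_le_pow_left₀ (abs_nonneg _) e1 2
    have e3 := mult_inv hm hr
    have e4 : (avg B n r - B r) ^ 2 / h r = (avg B n r - B r) ^ 2 * (1 / h r) := by ring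
    rw [e4]
    refine (mul_le_mul e2 e3 (by have := hm.pos r hr; positivity) (by positivity)).trans
      (le_of_eq ?_)
    simp only [hQdef]
    field_simp
    ring
  have hquad : ∀ n : ℕ, ∀ r, 0 < r → (avg B n r + h1 r / 2) ^ 2 / h r ≤ 2 * q r + 2 * Q r := by
    intro n r hr
    have e1 := hQ n r hr
    have hhr := hm.pos r hr
    have e2 : (avg B n r + h1 r / 2) ^ 2 / h r ≤
        2 * ((B r + h1 r / 2) ^ 2 / h r) + 2 * ((avg B n r - B r) ^ 2 / h r) := by
      rw [← mul_div_assoc, ← mul_div_assoc, ← add_div]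
      apply div_le_div_of_nonneg_right _ hhr.le
      nlinarith [sq_nonneg ((B r + h1 r / 2) - (avg B n r - B r))]
    simp only [hqdef]
    linarith
  have hwgr : Gr1 w := gr1_cmul (gr1_add gr1_inv (gr1_pow N)) C
  have hqgr : Gr1 q := hL.grq
  have hflux : ∀ n : ℕ, Flux h h1 (avg B n) (avg1 B n) := by
    intro n
    refine ⟨⟨fun r hr => hasDerivAt_avg hBc n hr, continuousOn_avg1 hBc n⟩, ?_, ?_, ?_⟩
    · refine ⟨|CB| + C + (|CB| + C), NB + N + 2, fun r hr => ?_⟩
      have e1 : |avg B n r - B r| ≤ C * (r + r ^ (N + 2)) := by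
        refine (hdiff n r hr).trans ?_
        refine (mul_le_mul_of_nonneg_left (len_le_sq n hr) (hw0 r hr)).trans (le_of_eq ?_)
        simp only [hwdef]
        field_simp
        ring
      have e2 : |B r| ≤ |CB| * (1 + r ^ NB) := (hgrB r hr).trans
        (mul_le_mul_of_nonneg_right (le_abs_self CB) (by positivity))
      have e3 : |avg B n r| ≤ |B r| + |avg B n r - B r| := by
        have : avg B n r = B r + (avg B n r - B r) := by ring
        conv_lhs => rw [this]
        exact abs_add_le _ _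
      have key : ∀ k, k ≤ NB + N + 2 → r ^ k ≤ 1 + r ^ (NB + N + 2) := by
        intro k hk
        rcases le_total r 1 with hr1 | hr1
        · have : r ^ k ≤ 1 := pow_le_one₀ hr.le hr1
          have : 0 ≤ r ^ (NB + N + 2) := by positivity
          linarith
        · have : r ^ k ≤ r ^ (NB + N + 2) := pow_le_pow_right₀ hr1 hk
          linarith
      have k1 := key 1 (by omega)
      have k2 := key (N + 2) (by omega)
      have k3 := key NB (by omega)
      rw [pow_one] at k1
      have e4 : |CB| * (1 + r ^ NB) ≤ |CB| * (2 * (1 + r ^ (NB + N + 2))) :=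
        mul_le_mul_of_nonneg_left (by
          have : 0 ≤ r ^ (NB + N + 2) := by positivity
          linarith) (abs_nonneg _)
      have e5 : C * (r + r ^ (N + 2)) ≤ C * (2 * (1 + r ^ (NB + N + 2))) :=
        mul_le_mul_of_nonneg_left (by linarith) hC
      linarith
    · refine gr1_of_le (gr1_cmul hwgr 3) fun r hr => ?_
      exact (avg1_le hBc hr (hw0 r hr) (hw r hr) n).2
    · refine gr1_of_le (gr1_add (gr1_cmul hqgr 2) (gr1_cmul hQgr 2)) fun r hr => ?_
      rw [abs_of_nonneg (div_nonneg (sq_nonneg _) (hm.pos r hr).le)]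
      exact hquad n r hr
  -- domination
  have hhgr : Gr h := by
    refine ⟨Ch, 3, fun r hr => ?_⟩
    rw [abs_of_pos (hm.pos r hr)]
    exact (hTr1 r hr.le).1
  obtain ⟨D, M, hD⟩ : Gr1 (fun r => 5 * w r + (2 * (|B r| / r) + (2 * q r + (2 * Q r +
      |h r| / r)))) :=
    gr1_add (gr1_cmul hwgr 5) (gr1_add (gr1_cmul (gr1_of_gr hL.gr) 2) (gr1_add
      (gr1_cmul hqgr 2) (gr1_add (gr1_cmul hQgr 2) (gr1_of_gr hhgr))))
  have hdom : ∀ n : ℕ, ∀ r, 0 < r → |Kf h h1 (avg B n) (avg1 B n) r| ≤ D * (1 / r + r ^ M) := by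
    intro n r hr
    refine le_trans ?_ ((le_abs_self _).trans (hD r hr))
    have a1 := (avg1_le hBc hr (hw0 r hr) (hw r hr) n).2
    have a2 := hquad n r hr
    have a3 : 0 ≤ (avg B n r + h1 r / 2) ^ 2 / h r :=
      div_nonneg (sq_nonneg _) (hm.pos r hr).le
    have a4 : |avg B n r| ≤ |B r| + w r * r := by
      have : avg B n r = B r + (avg B n r - B r) := by ring
      rw [this]
      refine (abs_add_le _ _).trans ?_
      have := (hdiff n r hr).trans (mul_le_mul_of_nonneg_left (len_le n hr) (hw0 r hr))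
      linarith
    have a5 : |2 * avg B n r / r| ≤ 2 * (|B r| / r) + 2 * w r := by
      rw [abs_div, abs_mul, abs_of_pos hr, abs_of_pos (by norm_num : (0 : ℝ) < 2),
        div_le_iff₀ hr]
      have : (2 * (|B r| / r) + 2 * w r) * r = 2 * (|B r| + w r * r) := by
        field_simp
      rw [this]
      linarith
    have a6 : |h r / r| = |h r| / r := by rw [abs_div, abs_of_pos hr]
    unfold Kf
    have b1 := abs_sub (avg1 B n r + 2 * avg B n r / r - (avg B n r + h1 r / 2) ^ 2 / h r)
      (h r / r)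
    have b2 := abs_sub (avg1 B n r + 2 * avg B n r / r) ((avg B n r + h1 r / 2) ^ 2 / h r)
    have b3 := abs_add_le (avg1 B n r) (2 * avg B n r / r)
    rw [abs_of_nonneg a3] at b2
    have hQ0 : 0 ≤ Q r := (div_nonneg (sq_nonneg _) (hm.pos r hr).le).trans (hQ n r hr)
    have hq0' := hq0 r hr
    linarith
  -- almost everywhere
  have hpos : ∀ᵐ r ∂ν, 0 < r := by
    have := measure_eq_zero_iff_ae_notMem.1 hF.supp
    filter_upwards [this] with r hr
    exact not_le.1 hr
  have hna : NullSingletonClass ν := ⟨hF.na⟩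
  have hnK : ∀ᵐ r ∂ν, r ∉ K := by
    have h0 : ν (K : Set ℝ) = 0 := K.finite_toSet.measure_zero ν
    have := measure_eq_zero_iff_ae_notMem.1 h0
    filter_upwards [this] with r hr
    exact fun h => hr (Finset.mem_coe.2 h)
  have hrestr : ν.restrict (Ioi 0) = ν := Measure.restrict_eq_self_of_ae_mem hpos
  have hhc : ContinuousOn h (Ioi 0) := hm.cont.mono Ioi_subset_Ici_self
  have hh1c : ContinuousOn h1 (Ioi 0) := hm.cont1.mono Ioi_subset_Ici_self
  have hmeas : ∀ n : ℕ, AEStronglyMeasurable (Kf h h1 (avg B n) (avg1 B n)) ν := by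
    intro n
    have havg : ContinuousOn (avg B n) (Ioi 0) := fun r hr =>
      (hasDerivAt_avg hBc n hr).continuousAt.continuousWithinAt
    have hcont : ContinuousOn (Kf h h1 (avg B n) (avg1 B n)) (Ioi 0) := by
      unfold Kf
      refine (((continuousOn_avg1 hBc n).add ?_).sub ?_).sub ?_
      · exact (havg.const_mul 2).div continuousOn_id fun r hr => ne_of_gt hr
      · refine ((havg.add (hh1c.div_const 2)).pow 2).div hhc fun r hr => ?_
        exact (hm.pos r hr).ne'
      · exact hhc.div continuousOn_id fun r hr => ne_of_gt hr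
    have := hcont.aestronglyMeasurable (μ := ν) measurableSet_Ioi
    rwa [hrestr] at this
  have hlim : ∀ᵐ r ∂ν, Tendsto (fun n : ℕ => Kf h h1 (avg B n) (avg1 B n) r) atTop
      (𝓝 (Kf h h1 B B1 r)) := by
    filter_upwards [hpos, hnK] with r hr hrK
    have hder := hK r hr hrK
    have hinv : Tendsto (fun n : ℕ => 1 / ((n : ℝ) + 1)) atTop (𝓝 0) :=
      tendsto_one_div_add_atTop_nhds_zero_nat
    have t1 : Tendsto (fun n : ℕ => avg B n r) atTop (𝓝 (B r)) := by
      rw [tendsto_iff_norm_sub_tendsto_zero]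
      have hz : Tendsto (fun n : ℕ => w r * r ^ 2 * (1 / ((n : ℝ) + 1))) atTop (𝓝 0) := by
        simpa using hinv.const_mul (w r * r ^ 2)
      refine squeeze_zero (fun n => norm_nonneg _) (fun n => ?_) hz
      rw [Real.norm_eq_abs]
      refine (hdiff n r hr).trans ?_
      refine (mul_le_mul_of_nonneg_left (len_le_div n hr) (hw0 r hr)).trans (le_of_eq ?_)
      ring
    have tl : Tendsto (fun n : ℕ => len n r) atTop (𝓝 0) := by
      have hz : Tendsto (fun n : ℕ => r ^ 2 * (1 / ((n : ℝ) + 1))) atTop (𝓝 0) := by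
        simpa using hinv.const_mul (r ^ 2)
      refine squeeze_zero (fun n => (len_pos n hr).le) (fun n => ?_) hz
      refine (len_le_div n hr).trans (le_of_eq ?_)
      ring
    have ts : Tendsto (fun n : ℕ => r + len n r) atTop (𝓝[≠] r) := by
      rw [tendsto_nhdsWithin_iff]
      refine ⟨by simpa using tl.const_add r, Eventually.of_forall fun n => ?_⟩
      have := len_pos n hr
      simp only [mem_compl_iff, mem_singleton_iff]
      linarith
    have t2 : Tendsto (fun n : ℕ => (B (r + len n r) - B r) / len n r) atTop (𝓝 (B1 r)) := by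
      have := (hasDerivAt_iff_tendsto_slope.1 hder).comp ts
      refine this.congr fun n => ?_
      simp only [Function.comp, slope_def_field]
      rw [add_sub_cancel_left]
    have t3 : Tendsto (fun n : ℕ => len1 n r / len n r * (B (r + len n r) - avg B n r)) atTop
        (𝓝 0) := by
      rw [tendsto_zero_iff_norm_tendsto_zero]
      have hz : Tendsto (fun n : ℕ => 2 * w r * (1 / ((n : ℝ) + 1))) atTop (𝓝 0) := by
        simpa using hinv.const_mul (2 * w r)
      refine squeeze_zero (fun n => norm_nonneg _) (fun n => ?_) hz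
      rw [Real.norm_eq_abs]
      refine (avg1_le hBc hr (hw0 r hr) (hw r hr) n).1.trans (le_of_eq ?_)
      ring
    have t4 : Tendsto (fun n : ℕ => avg1 B n r) atTop (𝓝 (B1 r)) := by
      have := t2.add t3
      rw [add_zero] at this
      exact this
    unfold Kf
    refine ((t4.add ((t1.const_mul 2).div_const r)).sub ?_).sub tendsto_const_nhds
    exact ((t1.add_const (h1 r / 2)).pow 2).div_const (h r)
  have hbint : Integrable (fun r : ℝ => D * (1 / r + r ^ M)) ν :=
    (hF.inv.add (hF.mom M)).const_mul D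
  have hboundae : ∀ n : ℕ, ∀ᵐ r ∂ν, ‖Kf h h1 (avg B n) (avg1 B n) r‖ ≤ D * (1 / r + r ^ M) := by
    intro n
    filter_upwards [hpos] with r hr
    exact hdom n r hr
  have hmeasl : AEStronglyMeasurable (Kf h h1 B B1) ν :=
    aestronglyMeasurable_of_tendsto_ae atTop hmeas hlim
  constructor
  · refine hbint.mono' hmeasl ?_
    filter_upwards [hpos, hlim] with r hr hl
    exact le_of_tendsto hl.norm (Eventually.of_forall fun n => hdom n r hr)
  · have := tendsto_integral_of_dominated_convergence _ hmeas hbint hboundae hlim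
    refine le_of_tendsto (this.add_const (κ * Dh h ν)) (Eventually.of_forall fun n => ?_)
    exact hF.test h h1 (avg B n) (avg1 B n) hm (hflux n)

end Pool.Agent.H96.HN
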